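import Pool.Agent.H55.CG.Targets

/-!
# Board cog_modules, row RSL: the rare stretch lemma
-/

set_option autoImplicit false

open MeasureTheory ProbabilityTheory Filter Topology
open Pool.Agent.H95 Pool.Agent.H95.Cop Pool.Agent.H55.CG

namespace Pool.Agent.H20.CG

/-- the error term tends to zero -/
theorem RSL_lim (a b : ℝ) (B : ℕ) (hB : 1 ≤ B) :
    Tendsto (fun M : ℕ => (a - b * Real.log ((M * B : ℕ) : ℝ)) / ((M * B : ℕ) : ℝ)) atTop (𝓝 0) := by
  have h1 : Tendsto (fun M : ℕ => ((M * B : ℕ) : ℝ)) atTop atTop := by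
    refine tendsto_natCast_atTop_atTop.comp ?_
    refine tendsto_atTop_mono (fun M => ?_) tendsto_id
    exact Nat.le_mul_of_pos_right M hB
  have h2 : Tendsto (fun x : ℝ => Real.log x / x) atTop (𝓝 0) :=
    Real.isLittleO_log_id_atTop.tendsto_div_nhds_zero
  have h3 : Tendsto (fun x : ℝ => a / x - b * (Real.log x / x)) atTop (𝓝 0) := by
    have := (tendsto_const_nhds (x := a)).div_atTop tendsto_id |>.sub (h2.const_mul b)
    simpa using this
  refine (h3.comp h1).congr fun M => ?_
  simp only [Function.comp]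
  rw [sub_div, mul_div_assoc]

theorem pf_RSL (hEXA : T_EXA) (hMAP : T_MAP) (hMSL : T_MSL) (hTLM : T_TLM) : T_RSL := by
  intro α hα K hK0 cK hcK hK μ _ hexp c n0 hc hlow ℓ m hℓ hnℓ hm lam h g p hp hp0 hQ
  have hid := integrable_id' μ hexp
  have hfm : Measurable (fun z : ℝ => -2 * lam * (z + h)) := by fun_prop
  have hfi : Integrable (fun z : ℝ => -2 * lam * (z + h)) μ :=
    (hid.add (integrable_const h)).const_mul _
  have hprob : IsProbabilityMeasure (μ.map (fun z : ℝ => -2 * lam * (z + h))) :=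
    Measure.isProbabilityMeasure_map hfm.aemeasurable
  have hmap := hMAP μ (fun z : ℝ => -2 * lam * (z + h)) hfm
  have hFm : Measurable (fun (ω : ℕ → ℝ) (i : ℕ) => -2 * lam * (ω i + h)) :=
    measurable_pi_lambda _ fun i => hfm.comp (measurable_pi_apply i)
  have hch : ∀ ω : ℕ → ℝ, ch lam h ω = fun i => -2 * lam * (ω i + h) := fun ω => rfl
  have hXm : Measurable (XB K ℓ m) := (hMSL K ℓ 0 m []).2.2.2.2.2.2
  have hνi : Integrable (fun z : ℝ => z) (μ.map (fun z : ℝ => -2 * lam * (z + h))) :=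
    (integrable_map_measure aestronglyMeasurable_id hfm.aemeasurable).2 hfi
  have hpν : p = (iid (μ.map (fun z : ℝ => -2 * lam * (z + h)))).real
      {x | Real.exp g ≤ XB K ℓ m x} := by
    rw [hp, ← hmap, map_measureReal_apply hFm (measurableSet_le measurable_const hXm)]
    rfl
  set B : ℕ := (2 * m + 2) * ℓ with hBdef
  have hBℓ : ℓ ≤ B := by
    rw [hBdef]
    exact Nat.le_mul_of_pos_left ℓ (by omega)
  have hB1 : 1 ≤ B := le_trans hℓ hBℓ
  set Q : ℝ := g + Real.log (c / 2) - (1 + α) * Real.log (B : ℝ) -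
    (1 + α) * Real.log (1 / p) with hQdef
  -- the lower bound for the averaged logarithm
  have key : ∀ M : ℕ, 1 ≤ M → (M : ℝ) * p * Q + (Real.log (c / 2) -
      (1 + α) * Real.log ((M * B : ℕ) : ℝ)) ≤ ee μ K lam h (M * B) := by
    intro M hM
    have hMB : B ≤ M * B := Nat.le_mul_of_pos_left B (by omega)
    have hpos : (0 : ℝ) < ((M * B : ℕ) : ℝ) := by
      have : 0 < M * B := by omega
      exact_mod_cast this
    have h1 : c * ((M * B : ℕ) : ℝ) ^ (-(1 + α)) ≤ tailK K (M * B) :=
      le_trans (hlow (M * B) (by omega)) (hTLM K hK0 (M * B) (M * B) (le_refl _)).2.1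
    have h2 : 0 < c * ((M * B : ℕ) : ℝ) ^ (-(1 + α)) := mul_pos hc (Real.rpow_pos_of_pos hpos _)
    have h3 := hEXA K hK0 α c n0 hα hc hlow (μ.map (fun z : ℝ => -2 * lam * (z + h))) hνi ℓ m M hℓ
      hnℓ hm (lt_of_lt_of_le h2 h1) g p hpν hp0
    have h4 : ∫ x, Real.log (W K (M * B) x) ∂(iid (μ.map (fun z : ℝ => -2 * lam * (z + h)))) =
        ee μ K lam h (M * B) := by
      rw [← hmap, integral_map hFm.aemeasurable
        (measurable_W K (M * B)).log.aestronglyMeasurable]
      rfl
    rw [h4] at h3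
    have h5 : Real.log (c / 2) - (1 + α) * Real.log ((M * B : ℕ) : ℝ) ≤
        Real.log (tailK K (M * B) / 2) := by
      have e1 : Real.log (c / 2 * ((M * B : ℕ) : ℝ) ^ (-(1 + α))) =
          Real.log (c / 2) - (1 + α) * Real.log ((M * B : ℕ) : ℝ) := by
        rw [Real.log_mul (by positivity) (Real.rpow_pos_of_pos hpos _).ne', Real.log_rpow hpos]
        ring
      rw [← e1]
      refine Real.log_le_log (by positivity) ?_
      linarith
    linarith
  obtain ⟨F, hF⟩ := exists_freeEnergy μ α hα K hK0 cK hcK hK hexp lam h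
  refine ⟨F, ?_, hF⟩
  have hsub : Tendsto (fun M : ℕ => finiteFreeEnergy K μ lam h (M * B)) atTop (𝓝 F) := by
    refine hF.comp ?_
    refine tendsto_atTop_mono (fun M => ?_) tendsto_id
    exact Nat.le_mul_of_pos_right M hB1
  have hlim : Tendsto (fun M : ℕ => p * Q / B + (Real.log (c / 2) -
      (1 + α) * Real.log ((M * B : ℕ) : ℝ)) / ((M * B : ℕ) : ℝ)) atTop (𝓝 (p * Q / B)) := by
    have := (tendsto_const_nhds (x := p * Q / B)).add (RSL_lim (Real.log (c / 2)) (1 + α) B hB1)
    simpa using this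
  have hBpos : (0 : ℝ) < B := by exact_mod_cast hB1
  have hle : p * Q / B ≤ F := by
    refine le_of_tendsto_of_tendsto hlim hsub ?_
    filter_upwards [eventually_ge_atTop 1] with M hM
    have h1 := key M hM
    have hMpos : (0 : ℝ) < M := by exact_mod_cast hM
    have hpos : (0 : ℝ) < ((M * B : ℕ) : ℝ) := by
      push_cast
      positivity
    rw [finiteFreeEnergy_eq μ K hid]
    have e1 : p * Q / B + (Real.log (c / 2) - (1 + α) * Real.log ((M * B : ℕ) : ℝ)) /
        ((M * B : ℕ) : ℝ) = ((M : ℝ) * p * Q + (Real.log (c / 2) -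
          (1 + α) * Real.log ((M * B : ℕ) : ℝ))) / ((M * B : ℕ) : ℝ) := by
      rw [add_div ((M : ℝ) * p * Q)]
      congr 1
      push_cast
      field_simp
    rw [e1]
    exact div_le_div_of_nonneg_right h1 hpos.le
  have : 0 < p * Q / B := by positivity
  linarith

end Pool.Agent.H20.CG
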