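import Pool.Agent.H55.CG.Targets

/-!
# Board cog_modules, row STP: from one group to the next
-/

set_option autoImplicit false

open MeasureTheory ProbabilityTheory Filter Topology
open Pool.Agent.H95 Pool.Agent.H95.Cop Pool.Agent.H55.CG

namespace Pool.Agent.H20.CG

theorem STP_dist {ι : Type} (s : Finset ι) (f : ι → ℝ) (c F : ℝ) :
    c * (∑ a ∈ s, f a) * F = ∑ a ∈ s, c * f a * F := by
  rw [Finset.mul_sum, Finset.sum_mul]

/-- the second group, in the coordinates of the first one -/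
theorem STP_shift (hPZS : T_PZS) (K : PMF ℕ) (ℓ : ℕ) (t' : Bool) (n n' m' : ℕ) (x : ℕ → ℝ)
    (hn' : 1 ≤ n') :
    Xg K ℓ t' n' m' (shift (2 * n * ℓ) x) =
      ∑ z ∈ Finset.Ico ((2 * (n + (n' + m')) - 1) * ℓ) (2 * (n + (n' + m')) * ℓ),
        ∑ b ∈ Finset.Ico ((2 * (n + n') - 1) * ℓ) (2 * (n + n') * ℓ),
          Real.exp (if t' then H x (2 * n * ℓ) b else 0) *
            (if b ≤ z then pz K x (z - b) b else 0) := by
  set L := 2 * n * ℓ with hL
  have e1 : (2 * (n + n') - 1) * ℓ = (2 * n' - 1) * ℓ + L := by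
    rw [hL, ← add_mul]
    congr 1
    omega
  have e2 : 2 * (n + n') * ℓ = 2 * n' * ℓ + L := by
    rw [hL, ← add_mul]
    congr 1
    omega
  have e3 : (2 * (n + (n' + m')) - 1) * ℓ = (2 * (n' + m') - 1) * ℓ + L := by
    rw [hL, ← add_mul]
    congr 1
    omega
  have e4 : 2 * (n + (n' + m')) * ℓ = 2 * (n' + m') * ℓ + L := by
    rw [hL, ← add_mul]
    congr 1
    omega
  rw [Finset.sum_comm, e1, e2, e3, e4]
  unfold Xg
  rw [← Finset.sum_Ico_add' (fun b => ∑ z ∈ Finset.Ico ((2 * (n' + m') - 1) * ℓ + L)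
    (2 * (n' + m') * ℓ + L), Real.exp (if t' then H x L b else 0) *
      (if b ≤ z then pz K x (z - b) b else 0)) ((2 * n' - 1) * ℓ) (2 * n' * ℓ) L]
  refine Finset.sum_congr rfl fun b _ => ?_
  rw [← Finset.sum_Ico_add' (fun z => Real.exp (if t' then H x L (b + L) else 0) *
      (if b + L ≤ z then pz K x (z - (b + L)) (b + L) else 0)) ((2 * (n' + m') - 1) * ℓ)
        (2 * (n' + m') * ℓ) L, Finset.mul_sum]
  refine Finset.sum_congr rfl fun z _ => ?_
  have h1 : H (shift L x) 0 b = H x L (b + L) := by rw [H_shift, zero_add]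
  have h2 : (if b ≤ z then pz K (shift L x) (z - b) b else 0) =
      if b + L ≤ z + L then pz K x (z + L - (b + L)) (b + L) else 0 := by
    rw [(hPZS K x b (z - b) L).2.2.2, Nat.add_sub_add_right]
    by_cases h : b ≤ z
    · rw [if_pos h, if_pos (by omega)]
    · rw [if_neg h, if_neg (by omega)]
  rw [h1, h2]

/-- one jump -/
theorem STP_jump (K : PMF ℕ) (t' : Bool) (x : ℕ → ℝ) (a L b : ℕ) (haL : a ≤ L) (hLb : L ≤ b)
    (e : ℝ) (he : e ≤ kk K (b - a) / 2) :
    Real.exp (if t' then H x a L else 0) * e * Real.exp (if t' then H x L b else 0) ≤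
      kk K (b - a) * wt x a b := by
  have hk := kk_nonneg K (b - a)
  have h1 : Real.exp (if t' then H x a L else 0) * Real.exp (if t' then H x L b else 0) ≤
      2 * wt x a b := by
    rw [← Real.exp_add]
    unfold wt
    have h3 := Real.exp_pos (H x a b)
    cases t' with
    | true =>
      simp only [if_true]
      rw [H_add x haL hLb]
      linarith
    | false =>
      simp only [Bool.false_eq_true, if_false, add_zero, Real.exp_zero]
      linarith
  have h2 : 0 ≤ Real.exp (if t' then H x a L else 0) * Real.exp (if t' then H x L b else 0) := by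
    positivity
  calc Real.exp (if t' then H x a L else 0) * e * Real.exp (if t' then H x L b else 0) =
        e * (Real.exp (if t' then H x a L else 0) * Real.exp (if t' then H x L b else 0)) := by ring
    _ ≤ kk K (b - a) / 2 * (Real.exp (if t' then H x a L else 0) *
          Real.exp (if t' then H x L b else 0)) := mul_le_mul_of_nonneg_right he h2
    _ ≤ kk K (b - a) / 2 * (2 * wt x a b) := mul_le_mul_of_nonneg_left h1 (by linarith)
    _ = kk K (b - a) * wt x a b := by ring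

/-- the bound for fixed end points -/
theorem STP_point (hPZS : T_PZS) (hPZU : T_PZU) (hCHX : T_CHX) (K : PMF ℕ) (ℓ : ℕ)
    (t t' : Bool) (n : ℕ) (x : ℕ → ℝ) (e : ℝ) (IB : Finset ℕ) (y z : ℕ)
    (hy : y ≤ 2 * n * ℓ) (hz : 2 * n * ℓ ≤ z) (hIB : ∀ b ∈ IB, 2 * n * ℓ ≤ b)
    (he : ∀ a, y ≤ a → a < 2 * n * ℓ → ∀ b ∈ IB, e ≤ kk K (b - a) / 2) (he0 : 0 ≤ e) :
    e * (∑ a ∈ Finset.Ico y (2 * n * ℓ), uu (kk K) (a - y) * Real.exp (ex ℓ t n t' x y a)) *
      (∑ b ∈ IB, Real.exp (if t' then H x (2 * n * ℓ) b else 0) *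
        (if b ≤ z then pz K x (z - b) b else 0)) ≤
      Real.exp (if t then H x 0 y else 0) * pz K x (z - y) y := by
  set L := 2 * n * ℓ with hL
  set E := Real.exp (if t then H x 0 y else 0) with hE
  have hE0 : 0 < E := Real.exp_pos _
  set F := ∑ b ∈ IB, Real.exp (if t' then H x L b else 0) *
        (if b ≤ z then pz K x (z - b) b else 0) with hF
  have hpz : ∀ d a, 0 ≤ pz K x d a := fun d a => (hPZS K x a d 0).2.2.1
  have hF0 : 0 ≤ F := by
    refine Finset.sum_nonneg fun b _ => mul_nonneg (Real.exp_pos _).le ?_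
    split_ifs
    · exact hpz _ _
    · exact le_refl _
  have hsub : IB.filter (fun b => b ≤ z) ⊆ Finset.Icc L z := by
    intro b hb
    rw [Finset.mem_filter] at hb
    rw [Finset.mem_Icc]
    exact ⟨hIB b hb.1, hb.2⟩
  have h1 := hCHX K x L z hz (IB.filter (fun b => b ≤ z)) hsub y hy
  refine le_trans ?_ (mul_le_mul_of_nonneg_left h1 hE0.le)
  rw [STP_dist, Finset.mul_sum]
  refine Finset.sum_le_sum fun a ha => ?_
  rw [Finset.mem_Ico] at ha
  have hu := hPZU K x (a - y) y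
  rw [show y + (a - y) = a by omega] at hu
  have hu0 : 0 ≤ uu (kk K) (a - y) * Real.exp (H x y a / 2) :=
    mul_nonneg (uu_nonneg _ (kk_nonneg K) _) (Real.exp_pos _).le
  have hex : Real.exp (ex ℓ t n t' x y a) = E * Real.exp (H x y a / 2) *
      Real.exp (if t' then H x a L else 0) := by
    unfold ex
    rw [Real.exp_add, Real.exp_add]
  have h2 : Real.exp (if t' then H x a L else 0) * e * F ≤
      ∑ b ∈ IB.filter (fun b => b ≤ z), kk K (b - a) * wt x a b * pz K x (z - b) b := by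
    rw [hF, Finset.mul_sum, Finset.sum_filter]
    refine Finset.sum_le_sum fun b hb => ?_
    by_cases hbz : b ≤ z
    · rw [if_pos hbz, if_pos hbz, ← mul_assoc]
      exact mul_le_mul_of_nonneg_right (STP_jump K t' x a L b ha.2.le (hIB b hb) e
        (he a ha.1 ha.2 b hb)) (hpz _ _)
    · rw [if_neg hbz, if_neg hbz, mul_zero, mul_zero]
  have h3 : 0 ≤ Real.exp (if t' then H x a L else 0) * e * F :=
    mul_nonneg (mul_nonneg (Real.exp_pos _).le he0) hF0
  calc e * (uu (kk K) (a - y) * Real.exp (ex ℓ t n t' x y a)) * F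
      = E * ((uu (kk K) (a - y) * Real.exp (H x y a / 2)) *
          (Real.exp (if t' then H x a L else 0) * e * F)) := by rw [hex]; ring
    _ ≤ E * (pz K x (a - y) y * ∑ b ∈ IB.filter (fun b => b ≤ z),
          kk K (b - a) * wt x a b * pz K x (z - b) b) := by
        refine mul_le_mul_of_nonneg_left ?_ hE0.le
        exact mul_le_mul hu h2 h3 (hpz _ _)

theorem pf_STP (hPZS : T_PZS) (hPZU : T_PZU) (hCHX : T_CHX) (hGGS : T_GGS) : T_STP := by
  intro K ℓ hℓ t t' n n' m' x hn hn' b hb0 hb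
  have hV : 0 < VV K ℓ := (hGGS K ℓ hℓ).1
  rw [STP_shift hPZS K ℓ t' n n' m' x hn']
  unfold gg Xg
  set A := ∑ y ∈ Finset.Ico ((2 * n - 1) * ℓ) (2 * n * ℓ), ∑ z ∈ Finset.Ico y (2 * n * ℓ),
    uu (kk K) (z - y) * Real.exp (ex ℓ t n t' x y z) with hA
  have h0 : ∀ S : ℝ, b * (A / VV K ℓ) * S = b / VV K ℓ * A * S := fun S => by ring
  rw [h0, hA, STP_dist]
  refine Finset.sum_le_sum fun y hy => ?_
  rw [Finset.mem_Ico] at hy
  refine (le_of_eq (Finset.mul_sum _ _ _)).trans (le_trans (Finset.sum_le_sum fun z hz => ?_)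
    (le_of_eq (Finset.mul_sum _ _ _).symm))
  rw [Finset.mem_Ico] at hz
  have e1 : 2 * n * ℓ + ℓ ≤ (2 * (n + (n' + m')) - 1) * ℓ := by
    have h1 : 2 * n + 1 ≤ 2 * (n + (n' + m')) - 1 := by omega
    have h2 := Nat.mul_le_mul_right ℓ h1
    rw [add_mul, one_mul] at h2
    exact h2
  have hyz : y ≤ z := by omega
  rw [if_pos hyz]
  have e2 : (2 * (n + n') - 1) * ℓ = (2 * n' - 1) * ℓ + 2 * n * ℓ := by
    rw [← add_mul]
    congr 1
    omega
  have e3 : 2 * (n + n') * ℓ = 2 * n' * ℓ + 2 * n * ℓ := by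
    rw [← add_mul]
    congr 1
    omega
  have e4 : (2 * n' + 1) * ℓ = 2 * n' * ℓ + ℓ := by
    rw [add_mul, one_mul]
  have e5 : 2 * n * ℓ = (2 * n - 1) * ℓ + ℓ := by
    have h1 : 2 * n = (2 * n - 1) + 1 := by omega
    rw [← Nat.add_one_mul, ← h1]
  refine STP_point hPZS hPZU hCHX K ℓ t t' n x (b / VV K ℓ)
    (Finset.Ico ((2 * (n + n') - 1) * ℓ) (2 * (n + n') * ℓ)) y z (by omega) (by omega) ?_ ?_
    (div_nonneg hb0 hV.le)
  · intro c hc
    rw [Finset.mem_Ico] at hc
    omega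
  · intro a ha1 ha2 c hc
    rw [Finset.mem_Ico] at hc
    rw [div_le_iff₀ hV]
    exact hb (c - a) (by omega) (by omega)

end Pool.Agent.H20.CG
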